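import Mathlib

/-!
# Perfect state transfer with cubically many edges (problem MP_f96bdb_co)

* `exp_boxProd`: if every adjacency eigenvalue of a finite graph `H` is a multiple of `4`, then
  the Cartesian product `H □ K₂` has perfect state transfer at time `π / 2` between the two copies
  of every vertex of `H`.
* `Hn n`: the path with `2 n` vertices in which the vertices are replaced by independent sets of
  sizes `4 n, 4, 4 (n - 1), 8, 4 (n - 2), ..., 4, 4 n` and the edges by complete joins. Its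
  adjacency eigenvalues are `0, ±4, ±8, ..., ±4 n` (`eigen_Hn`: they are multiples of `4`). The
  proof pairs an eigenvector with the vectors `(-1) ^ j * binom (j, k)` supported on the even,
  respectively the odd, cells; in this basis the adjacency operator is triangular.
* `Hn n □ K₂` has diameter at least `n` (in fact `2 n`) and at most `72 n ^ 3` edges.
-/

set_option autoImplicit false

namespace PstGraph

section expo

open Matrix

theorem exp_smul_eq_of_eigen {V : Type*} [Fintype V] [DecidableEq V] (A Y : Matrix V V ℂ)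
    (hA : A.IsHermitian) (z : ℂ)
    (h : ∀ (r : ℝ) (v : V → ℂ), v ≠ 0 → A *ᵥ v = (r : ℂ) • v →
      Y *ᵥ v = Complex.exp (z * r) • v) :
    NormedSpace.exp (z • A) = Y := by
  set U : Matrix V V ℂ := (hA.eigenvectorUnitary : Matrix V V ℂ) with hUdef
  have hUU : U * star U = 1 := Unitary.coe_mul_star_self hA.eigenvectorUnitary
  have hUU' : star U * U = 1 := Unitary.coe_star_mul_self hA.eigenvectorUnitary
  have hinv : U⁻¹ = star U := Matrix.inv_eq_right_inv hUU
  have hunit : IsUnit U := ⟨⟨U, star U, hUU, hUU'⟩, rfl⟩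
  have hspec : z • A = U * diagonal (fun j => z * (hA.eigenvalues j : ℂ)) * U⁻¹ := by
    have h1 := hA.spectral_theorem
    rw [Unitary.conjStarAlgAut_apply] at h1
    rw [hinv]
    conv_lhs => rw [h1]
    rw [← hUdef, ← Matrix.smul_mul, ← Matrix.mul_smul, ← Matrix.diagonal_smul]
    rfl
  rw [hspec, Matrix.exp_conj _ _ hunit, Matrix.exp_diagonal]
  have hY : Y * U = U * diagonal (NormedSpace.exp (fun j => z * (hA.eigenvalues j : ℂ))) := by
    ext i j
    have hv : A *ᵥ (fun i => U i j) = ((hA.eigenvalues j : ℝ) : ℂ) • (fun i => U i j) := by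
      have := hA.mulVec_eigenvectorBasis j
      exact this
    have hne : (fun i => U i j) ≠ 0 := by
      intro h0
      have h2 := congrFun (congrFun hUU' j) j
      rw [Matrix.mul_apply] at h2
      have h3 : ∀ k, U k j = 0 := fun k => congrFun h0 k
      simp [h3] at h2
    have h4 := congrFun (h _ _ hne hv) i
    rw [Matrix.mul_diagonal, Matrix.mul_apply, Pi.coe_exp, ← Complex.exp_eq_exp_ℂ]
    simp only [Matrix.mulVec, dotProduct, Pi.smul_apply, smul_eq_mul] at h4
    rw [h4, mul_comm]
  rw [← hY, Matrix.mul_assoc, hinv, hUU, Matrix.mul_one]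

end expo

section product

open Matrix SimpleGraph

variable {W : Type*} [Fintype W] [DecidableEq W]

omit [DecidableEq W] in
theorem boxProd_mulVec (H : SimpleGraph W) [DecidableRel H.Adj]
    [DecidableRel (H □ (⊤ : SimpleGraph Bool)).Adj] (v : W × Bool → ℂ) (w : W) (s : Bool) :
    ((H □ (⊤ : SimpleGraph Bool)).adjMatrix ℂ *ᵥ v) (w, s)
      = (H.adjMatrix ℂ *ᵥ (fun w' => v (w', s))) w + v (w, !s) := by
  rw [adjMatrix_mulVec_apply, adjMatrix_mulVec_apply, neighborFinset_boxProd,
    Finset.sum_disjUnion, Finset.sum_product, Finset.sum_product]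
  have : (⊤ : SimpleGraph Bool).neighborFinset s = {!s} := by
    ext t; cases s <;> cases t <;> simp
  simp only [Finset.sum_singleton, this]

theorem exp_quarter (a : ℤ) : Complex.exp (Complex.I * (Real.pi / 2 : ℝ) * ((4 * a + 1 : ℝ) : ℂ))
    = Complex.I := by
  have : Complex.I * (Real.pi / 2 : ℝ) * ((4 * a + 1 : ℝ) : ℂ)
      = a * (2 * Real.pi * Complex.I) + Real.pi / 2 * Complex.I := by
    push_cast; ring
  rw [this, Complex.exp_add, Complex.exp_int_mul_two_pi_mul_I, one_mul,
    Complex.exp_pi_div_two_mul_I]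

theorem exp_quarter' (a : ℤ) : Complex.exp (Complex.I * (Real.pi / 2 : ℝ) * ((4 * a - 1 : ℝ) : ℂ))
    = -Complex.I := by
  have : Complex.I * (Real.pi / 2 : ℝ) * ((4 * a - 1 : ℝ) : ℂ)
      = a * (2 * Real.pi * Complex.I) + -(Real.pi / 2 * Complex.I) := by
    push_cast; ring
  rw [this, Complex.exp_add, Complex.exp_int_mul_two_pi_mul_I, one_mul, Complex.exp_neg,
    Complex.exp_pi_div_two_mul_I, Complex.inv_I]

/-- If all adjacency eigenvalues of `H` are multiples of `4`, then `H □ K₂` has perfect state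
transfer at time `π / 2` between the two copies of every vertex. -/
theorem exp_boxProd (H : SimpleGraph W) [DecidableRel H.Adj]
    [DecidableRel (H □ (⊤ : SimpleGraph Bool)).Adj]
    (hH : ∀ (r : ℝ) (v : W → ℂ), v ≠ 0 → H.adjMatrix ℂ *ᵥ v = (r : ℂ) • v → ∃ m : ℤ, r = 4 * m) :
    NormedSpace.exp ((Complex.I * (Real.pi / 2 : ℝ)) • (H □ (⊤ : SimpleGraph Bool)).adjMatrix ℂ)
      = Matrix.of (fun x y : W × Bool => if x.1 = y.1 ∧ x.2 ≠ y.2 then Complex.I else 0) := by
  apply exp_smul_eq_of_eigen
  · exact isHermitian_adjMatrix _ _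
  · intro r v hv hAv
    have hY : ∀ w s, (Matrix.of (fun x y : W × Bool =>
        if x.1 = y.1 ∧ x.2 ≠ y.2 then Complex.I else 0) *ᵥ v) (w, s)
          = Complex.I * v (w, !s) := by
      intro w s
      simp only [Matrix.mulVec, dotProduct, Matrix.of_apply]
      rw [Finset.sum_eq_single (w, !s)]
      · cases s <;> simp
      · rintro ⟨w', s'⟩ _ hne
        rw [if_neg, zero_mul]
        rintro ⟨h1, h2⟩
        apply hne
        simp only at h1 h2
        subst h1
        cases s <;> cases s' <;> simp_all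
      · simp
    have e : ∀ w s, (H.adjMatrix ℂ *ᵥ (fun w' => v (w', s))) w + v (w, !s) = r * v (w, s) := by
      intro w s
      rw [← boxProd_mulVec, hAv]; rfl
    have e0 := fun w => e w false
    have e1 := fun w => e w true
    simp only [Bool.not_false, Bool.not_true] at e0 e1
    set p : W → ℂ := fun w => v (w, false) + v (w, true) with hp
    set q : W → ℂ := fun w => v (w, false) - v (w, true) with hq
    have hBp : H.adjMatrix ℂ *ᵥ p = ((r - 1 : ℝ) : ℂ) • p := by
      ext w
      have : p = (fun w => v (w, false)) + (fun w => v (w, true)) := rfl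
      rw [this, Matrix.mulVec_add, Pi.add_apply, Pi.smul_apply, Pi.add_apply, smul_eq_mul]
      push_cast
      linear_combination e0 w + e1 w
    have hBq : H.adjMatrix ℂ *ᵥ q = ((r + 1 : ℝ) : ℂ) • q := by
      ext w
      have : q = (fun w => v (w, false)) - (fun w => v (w, true)) := rfl
      rw [this, Matrix.mulVec_sub, Pi.sub_apply, Pi.smul_apply, Pi.sub_apply, smul_eq_mul]
      push_cast
      linear_combination e0 w - e1 w
    by_cases hp0 : p = 0
    · have hq0 : q ≠ 0 := by
        intro hq0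
        apply hv
        ext ⟨w, s⟩
        have h1 := congrFun hp0 w
        have h2 := congrFun hq0 w
        simp only [hp, hq, Pi.zero_apply] at h1 h2
        cases s
        · simp only [Pi.zero_apply]; linear_combination (h1 + h2) / 2
        · simp only [Pi.zero_apply]; linear_combination (h1 - h2) / 2
      obtain ⟨m, hm⟩ := hH _ q hq0 hBq
      have hr : r = 4 * m - 1 := by linarith
      ext ⟨w, s⟩
      rw [hY, hr, Pi.smul_apply, exp_quarter', smul_eq_mul]
      have h1 := congrFun hp0 w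
      simp only [hp, Pi.zero_apply] at h1
      cases s
      · simp only [Bool.not_false]; linear_combination Complex.I * h1
      · simp only [Bool.not_true]; linear_combination Complex.I * h1
    · obtain ⟨m, hm⟩ := hH _ p hp0 hBp
      have hq0 : q = 0 := by
        by_contra hq0
        obtain ⟨m', hm'⟩ := hH _ q hq0 hBq
        have : (2 : ℝ) = 4 * (m' - m) := by linarith
        have h2 : (2 : ℤ) = 4 * (m' - m) := by exact_mod_cast this
        omega
      have hr : r = 4 * m + 1 := by linarith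
      ext ⟨w, s⟩
      rw [hY, hr, Pi.smul_apply, exp_quarter, smul_eq_mul]
      have h1 := congrFun hq0 w
      simp only [hq, Pi.zero_apply] at h1
      cases s
      · simp only [Bool.not_false]; linear_combination (-Complex.I) * h1
      · simp only [Bool.not_true]; linear_combination Complex.I * h1

end product

section algebra

open Finset

theorem choose_id1 (j k : ℕ) : ((j : ℂ) + 1) * (j.choose k : ℂ) - j * ((j - 1).choose k : ℂ)
    = (k + 1) * (j.choose k : ℂ) := by
  rcases j with _ | i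
  · rcases k with _ | k
    · simp
    · simp
  · have h1 : ((i : ℂ) + 1) * (i.choose k : ℂ) = ((i + 1).choose (k + 1) : ℂ) * (k + 1) := by
      exact_mod_cast Nat.add_one_mul_choose_eq i k
    have h2 : ((i : ℂ) + 1 + 1) * ((i + 1).choose k : ℂ)
        = ((i + 1 + 1).choose (k + 1) : ℂ) * (k + 1) := by
      exact_mod_cast Nat.add_one_mul_choose_eq (i + 1) k
    have h3 : ((i + 1 + 1).choose (k + 1) : ℂ)
        = ((i + 1).choose k : ℂ) + ((i + 1).choose (k + 1) : ℂ) := by
      exact_mod_cast Nat.choose_succ_succ (i + 1) k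
    rw [h3] at h2
    simp only [Nat.add_sub_cancel]
    push_cast
    linear_combination h2 - h1

theorem choose_id2 (j k : ℕ) : ((j : ℂ) - k) * (j.choose k : ℂ) = (k + 1) * (j.choose (k + 1) : ℂ)
    := by
  have h1 : ((j : ℂ) + 1) * (j.choose k : ℂ) = ((j + 1).choose (k + 1) : ℂ) * (k + 1) := by
    exact_mod_cast Nat.add_one_mul_choose_eq j k
  have h3 : ((j + 1).choose (k + 1) : ℂ)
      = (j.choose k : ℂ) + (j.choose (k + 1) : ℂ) := by
    exact_mod_cast Nat.choose_succ_succ j k
  rw [h3] at h1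
  linear_combination h1

theorem alg_beta (n : ℕ) (r : ℂ) (e o : ℕ → ℂ) (hen : e n = 0)
    (h2 : ∀ j < n, r * o j = 4 * (j + 1) * (e j + e (j + 1))) (k : ℕ) :
    r * ∑ j ∈ range n, (-1) ^ j * (j.choose k : ℂ) * o j
      = 4 * (k + 1) * ∑ j ∈ range n, (-1) ^ j * (j.choose k : ℂ) * e j := by
  have hshift : ∑ j ∈ range n, (-1 : ℂ) ^ j * (j.choose k : ℂ) * (j + 1) * e (j + 1)
      = ∑ j ∈ range n, -((-1 : ℂ) ^ j * j * ((j - 1).choose k : ℂ) * e j) := by
    have a := Finset.sum_range_succ
      (fun j : ℕ => -((-1 : ℂ) ^ j * j * ((j - 1).choose k : ℂ) * e j)) n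
    have b := Finset.sum_range_succ'
      (fun j : ℕ => -((-1 : ℂ) ^ j * j * ((j - 1).choose k : ℂ) * e j)) n
    rw [a] at b
    simp only [hen, mul_zero, neg_zero, add_zero, Nat.cast_zero, zero_mul,
      Nat.add_sub_cancel] at b
    rw [b]
    apply Finset.sum_congr rfl
    intro j _
    push_cast
    ring
  calc r * ∑ j ∈ range n, (-1) ^ j * (j.choose k : ℂ) * o j
      = 4 * ∑ j ∈ range n, ((-1 : ℂ) ^ j * (j.choose k : ℂ) * (j + 1) * e j
          + (-1 : ℂ) ^ j * (j.choose k : ℂ) * (j + 1) * e (j + 1)) := by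
        rw [Finset.mul_sum, Finset.mul_sum]
        apply Finset.sum_congr rfl
        intro j hj
        linear_combination ((-1) ^ j * (j.choose k : ℂ)) * h2 j (Finset.mem_range.mp hj)
    _ = _ := by
        rw [Finset.sum_add_distrib, hshift, ← Finset.sum_add_distrib, mul_assoc,
          Finset.mul_sum (a := (k : ℂ) + 1)]
        congr 1
        apply Finset.sum_congr rfl
        intro j _
        linear_combination ((-1) ^ j * e j) * choose_id1 j k

theorem alg_alpha_shift (n : ℕ) (r : ℂ) (e o : ℕ → ℂ)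
    (h1 : ∀ j < n, r * e j = 4 * (n - j) * (o j + if j = 0 then 0 else o (j - 1))) (k : ℕ) :
    r * ∑ j ∈ range n, (-1) ^ j * (j.choose k : ℂ) * e j
      = 4 * ∑ j ∈ range n, (-1 : ℂ) ^ j * o j *
        ((n - j) * (j.choose k : ℂ) - (n - 1 - j) * ((j + 1).choose k : ℂ)) := by
  have hshift : ∑ j ∈ range n, (-1 : ℂ) ^ j * (j.choose k : ℂ) * (n - j) *
        (if j = 0 then 0 else o (j - 1))
      = ∑ j ∈ range n, -((-1 : ℂ) ^ j * ((j + 1).choose k : ℂ) * (n - 1 - j) * o j) := by
    have a := Finset.sum_range_succ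
      (fun j : ℕ => (-1 : ℂ) ^ j * (j.choose k : ℂ) * (n - j) *
        (if j = 0 then 0 else o (j - 1))) n
    have b := Finset.sum_range_succ'
      (fun j : ℕ => (-1 : ℂ) ^ j * (j.choose k : ℂ) * (n - j) *
        (if j = 0 then 0 else o (j - 1))) n
    rw [a] at b
    simp only [sub_self, mul_zero, zero_mul, add_zero, if_true,
      Nat.add_sub_cancel, Nat.succ_ne_zero, if_false] at b
    rw [b]
    apply Finset.sum_congr rfl
    intro j _
    push_cast
    ring
  calc r * ∑ j ∈ range n, (-1) ^ j * (j.choose k : ℂ) * e j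
      = 4 * ∑ j ∈ range n, ((-1 : ℂ) ^ j * (j.choose k : ℂ) * (n - j) * o j
          + (-1 : ℂ) ^ j * (j.choose k : ℂ) * (n - j) * (if j = 0 then 0 else o (j - 1))) := by
        rw [Finset.mul_sum, Finset.mul_sum]
        apply Finset.sum_congr rfl
        intro j hj
        linear_combination ((-1) ^ j * (j.choose k : ℂ)) * h1 j (Finset.mem_range.mp hj)
    _ = _ := by
        rw [Finset.sum_add_distrib, hshift, ← Finset.sum_add_distrib]
        congr 1
        apply Finset.sum_congr rfl
        intro j _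
        ring

theorem alg_all (n : ℕ) (r : ℂ) (e o : ℕ → ℂ) (hen : e n = 0)
    (h1 : ∀ j < n, r * e j = 4 * (n - j) * (o j + if j = 0 then 0 else o (j - 1)))
    (h2 : ∀ j < n, r * o j = 4 * (j + 1) * (e j + e (j + 1)))
    (hr : ∀ m : ℤ, r ≠ 4 * m) (k : ℕ) :
    ∑ j ∈ range n, (-1) ^ j * (j.choose k : ℂ) * e j = 0 ∧
      ∑ j ∈ range n, (-1) ^ j * (j.choose k : ℂ) * o j = 0 := by
  have main : ∀ k : ℕ, r * ∑ j ∈ range n, (-1) ^ j * (j.choose k : ℂ) * e j
      = 4 * (k + 1) * ∑ j ∈ range n, (-1) ^ j * (j.choose k : ℂ) * o j →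
      ∑ j ∈ range n, (-1) ^ j * (j.choose k : ℂ) * e j = 0 ∧
      ∑ j ∈ range n, (-1) ^ j * (j.choose k : ℂ) * o j = 0 := by
    intro k hk
    have hb := alg_beta n r e o hen h2 k
    set α := ∑ j ∈ range n, (-1) ^ j * (j.choose k : ℂ) * e j
    set β := ∑ j ∈ range n, (-1) ^ j * (j.choose k : ℂ) * o j
    have n1 : r - 4 * (k + 1) ≠ 0 := by
      intro h
      apply hr (k + 1)
      push_cast
      linear_combination h
    have n2 : r + 4 * (k + 1) ≠ 0 := by
      intro h
      apply hr (-(k + 1))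
      push_cast
      linear_combination h
    have e1 : (r - 4 * (k + 1)) * ((r + 4 * (k + 1)) * α) = 0 := by
      linear_combination r * hk + 4 * (k + 1) * hb
    have e2 : (r - 4 * (k + 1)) * ((r + 4 * (k + 1)) * β) = 0 := by
      linear_combination r * hb + 4 * (k + 1) * hk
    have f1 := (mul_eq_zero.mp e1).resolve_left n1
    have f2 := (mul_eq_zero.mp e2).resolve_left n1
    exact ⟨(mul_eq_zero.mp f1).resolve_left n2, (mul_eq_zero.mp f2).resolve_left n2⟩
  induction k with
  | zero =>
    apply main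
    rw [alg_alpha_shift n r e o h1 0]
    simp only [Nat.choose_zero_right, Nat.cast_one, mul_one, Nat.cast_zero, zero_add]
    congr 1
    apply Finset.sum_congr rfl
    intro j _
    ring
  | succ k ih =>
    apply main
    rw [alg_alpha_shift n r e o h1 (k + 1)]
    have hterm : ∑ j ∈ range n, (-1 : ℂ) ^ j * o j *
        ((n - j) * (j.choose (k + 1) : ℂ) - (n - 1 - j) * ((j + 1).choose (k + 1) : ℂ))
        = (k + 2) * ∑ j ∈ range n, (-1) ^ j * (j.choose (k + 1) : ℂ) * o j
          - (n - k - 1) * ∑ j ∈ range n, (-1) ^ j * (j.choose k : ℂ) * o j := by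
      rw [Finset.mul_sum, Finset.mul_sum, ← Finset.sum_sub_distrib]
      apply Finset.sum_congr rfl
      intro j _
      have h3 : ((j + 1).choose (k + 1) : ℂ)
          = (j.choose k : ℂ) + (j.choose (k + 1) : ℂ) := by
        exact_mod_cast Nat.choose_succ_succ j k
      rw [h3]
      linear_combination ((-1) ^ j * o j) * choose_id2 j k
    rw [hterm, ih.2]
    push_cast
    ring

theorem zero_of_sums (n : ℕ) (e : ℕ → ℂ)
    (h : ∀ k : ℕ, ∑ j ∈ range n, (-1) ^ j * (j.choose k : ℂ) * e j = 0) :
    ∀ j < n, e j = 0 := by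
  have key : ∀ d j, j < n → n ≤ j + d + 1 → e j = 0 := by
    intro d
    induction d with
    | zero =>
      intro j hj hn
      have := h j
      rw [Finset.sum_eq_single j] at this
      · simpa using this
      · intro i hi hij
        rw [Finset.mem_range] at hi
        rw [Nat.choose_eq_zero_of_lt (by omega)]
        simp
      · intro hi
        exact absurd (Finset.mem_range.mpr hj) hi
    | succ d ih =>
      intro j hj hn
      have := h j
      rw [Finset.sum_eq_single j] at this
      · simpa using this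
      · intro i hi hij
        rw [Finset.mem_range] at hi
        rcases lt_or_gt_of_ne hij with hlt | hgt
        · rw [Nat.choose_eq_zero_of_lt hlt]
          simp
        · rw [ih i hi (by omega), mul_zero]
      · intro hi
        exact absurd (Finset.mem_range.mpr hj) hi
  intro j hj
  exact key n j hj (by omega)

end algebra

section graph

open Matrix SimpleGraph Finset

/-- Cell sizes (before the blow-up by `4`): `sz n (2 j) = n - j`, `sz n (2 j + 1) = j + 1`. -/
def sz (n c : ℕ) : ℕ := if c % 2 = 0 then n - c / 2 else c / 2 + 1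

/-- Vertices: `4 * sz n c` vertices in cell `c`, for `c < 2 n`. -/
abbrev Wn (n : ℕ) : Type := (c : Fin (2 * n)) × Fin (4 * sz n c)

/-- The graph: consecutive cells are completely joined, no other edges. -/
def Hn (n : ℕ) : SimpleGraph (Wn n) where
  Adj x y := (x.1 : ℕ) + 1 = y.1 ∨ (y.1 : ℕ) + 1 = x.1
  symm := ⟨fun _ _ h => h.symm⟩
  loopless := ⟨fun x h => by rcases h with h | h <;> omega⟩

instance (n : ℕ) : DecidableRel (Hn n).Adj := fun x y =>
  inferInstanceAs (Decidable ((x.1 : ℕ) + 1 = y.1 ∨ (y.1 : ℕ) + 1 = x.1))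

theorem sz_pos {n c : ℕ} (hc : c < 2 * n) : 0 < sz n c := by
  unfold sz; split_ifs <;> omega

theorem sz_le {n c : ℕ} (hc : c < 2 * n) : sz n c ≤ n := by
  unfold sz; split_ifs <;> omega

/-- the cell sum of a function -/
noncomputable def csum {n : ℕ} (v : Wn n → ℂ) (c : ℕ) : ℂ :=
  if h : c < 2 * n then ∑ a : Fin (4 * sz n c), v ⟨⟨c, h⟩, a⟩ else 0

theorem adj_mulVec (n : ℕ) (v : Wn n → ℂ) (x : Wn n) :
    ((Hn n).adjMatrix ℂ *ᵥ v) x
      = csum v ((x.1 : ℕ) + 1) + if (x.1 : ℕ) = 0 then 0 else csum v ((x.1 : ℕ) - 1) := by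
  simp only [Matrix.mulVec, dotProduct, adjMatrix_apply]
  rw [Fintype.sum_sigma]
  have h1 : ∀ c : Fin (2 * n), ∑ a : Fin (4 * sz n c),
      (if (Hn n).Adj x ⟨c, a⟩ then (1 : ℂ) else 0) * v ⟨c, a⟩
      = (if (x.1 : ℕ) + 1 = c then csum v c else 0) +
        (if (c : ℕ) + 1 = x.1 then csum v c else 0) := by
    intro c
    have hc : csum v c = ∑ a : Fin (4 * sz n c), v ⟨c, a⟩ := by
      unfold csum; rw [dif_pos c.2]
    rw [hc]
    by_cases h1 : (x.1 : ℕ) + 1 = c
    · have h2 : ¬ ((c : ℕ) + 1 = x.1) := by omega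
      rw [if_pos h1, if_neg h2, add_zero]
      apply Finset.sum_congr rfl
      intro a _
      rw [if_pos (show (Hn n).Adj x ⟨c, a⟩ from Or.inl h1), one_mul]
    · rw [if_neg h1, zero_add]
      by_cases h2 : (c : ℕ) + 1 = x.1
      · rw [if_pos h2]
        apply Finset.sum_congr rfl
        intro a _
        rw [if_pos (show (Hn n).Adj x ⟨c, a⟩ from Or.inr h2), one_mul]
      · rw [if_neg h2]
        apply Finset.sum_eq_zero
        intro a _
        rw [if_neg, zero_mul]
        rintro (h | h)
        · exact h1 h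
        · exact h2 h
  rw [Finset.sum_congr rfl (fun c _ => h1 c), Finset.sum_add_distrib]
  congr 1
  · by_cases hx : (x.1 : ℕ) + 1 < 2 * n
    · rw [Finset.sum_eq_single (⟨(x.1 : ℕ) + 1, hx⟩ : Fin (2 * n))]
      · simp
      · intro c _ hc
        rw [if_neg]
        intro h
        apply hc
        ext
        exact h.symm
      · simp
    · rw [show csum v ((x.1 : ℕ) + 1) = 0 by unfold csum; rw [dif_neg hx]]
      apply Finset.sum_eq_zero
      intro c _
      rw [if_neg]
      have := c.2
      omega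
  · by_cases hx : (x.1 : ℕ) = 0
    · rw [if_pos hx]
      apply Finset.sum_eq_zero
      intro c _
      rw [if_neg]
      omega
    · rw [if_neg hx]
      have hx2 := x.1.2
      rw [Finset.sum_eq_single (⟨(x.1 : ℕ) - 1, by omega⟩ : Fin (2 * n))]
      · rw [if_pos]
        simp only
        omega
      · intro c _ hc
        rw [if_neg]
        intro h
        apply hc
        ext
        simp only
        omega
      · simp

theorem csum_mulVec (n : ℕ) (v : Wn n → ℂ) (c : ℕ) (hc : c < 2 * n) :
    csum ((Hn n).adjMatrix ℂ *ᵥ v) c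
      = 4 * (sz n c : ℂ) * (csum v (c + 1) + if c = 0 then 0 else csum v (c - 1)) := by
  rw [show csum ((Hn n).adjMatrix ℂ *ᵥ v) c = ∑ a : Fin (4 * sz n c),
    ((Hn n).adjMatrix ℂ *ᵥ v) ⟨⟨c, hc⟩, a⟩ by unfold csum; rw [dif_pos hc]]
  simp only [adj_mulVec]
  rw [Finset.sum_const, Finset.card_univ, Fintype.card_fin, nsmul_eq_mul]
  push_cast
  ring

theorem csum_smul (n : ℕ) (v : Wn n → ℂ) (r : ℂ) (c : ℕ) : csum (r • v) c = r * csum v c := by
  unfold csum
  split_ifs
  · simp only [Pi.smul_apply, smul_eq_mul, Finset.mul_sum]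
  · simp

/-- All adjacency eigenvalues of `Hn n` are multiples of `4`. -/
theorem eigen_Hn (n : ℕ) (r : ℝ) (v : Wn n → ℂ) (hv : v ≠ 0)
    (h : (Hn n).adjMatrix ℂ *ᵥ v = (r : ℂ) • v) : ∃ m : ℤ, r = 4 * m := by
  by_contra hcon
  push Not at hcon
  have hr : ∀ m : ℤ, (r : ℂ) ≠ 4 * m := by
    intro m hm
    apply hcon m
    exact_mod_cast hm
  have hrec : ∀ c < 2 * n, (r : ℂ) * csum v c
      = 4 * (sz n c : ℂ) * (csum v (c + 1) + if c = 0 then 0 else csum v (c - 1)) := by
    intro c hc
    rw [← csum_mulVec n v c hc, h, csum_smul]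
  have h0 : csum v (2 * n) = 0 := by unfold csum; rw [dif_neg (by omega)]
  have key := alg_all n r (fun j => csum v (2 * j)) (fun j => csum v (2 * j + 1)) h0
    (by
      intro j hj
      have := hrec (2 * j) (by omega)
      rw [this]
      have e1 : sz n (2 * j) = n - j := by
        unfold sz; rw [if_pos (by omega)]; congr 1; omega
      rw [e1, Nat.cast_sub hj.le]
      congr 1
      congr 1
      rcases j with _ | j
      · simp
      · rw [if_neg (by omega), if_neg (by omega)]
        rfl)
    (by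
      intro j hj
      have := hrec (2 * j + 1) (by omega)
      rw [this]
      have e1 : sz n (2 * j + 1) = j + 1 := by
        unfold sz; rw [if_neg (by omega)]; congr 1; omega
      rw [e1, if_neg (by omega)]
      push_cast
      rw [show 2 * j + 1 + 1 = 2 * (j + 1) by ring]
      ring) hr
  have he := zero_of_sums n (fun j => csum v (2 * j)) (fun k => (key k).1)
  have ho := zero_of_sums n (fun j => csum v (2 * j + 1)) (fun k => (key k).2)
  have hall : ∀ c, csum v c = 0 := by
    intro c
    by_cases hc : c < 2 * n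
    · rcases Nat.even_or_odd' c with ⟨j, rfl | rfl⟩
      · exact he j (by omega)
      · exact ho j (by omega)
    · unfold csum; rw [dif_neg hc]
  apply hv
  ext x
  have h1 := congrFun h x
  rw [adj_mulVec, hall, hall] at h1
  simp only [ite_self, add_zero, Pi.smul_apply, smul_eq_mul] at h1
  have hr0 : (r : ℂ) ≠ 0 := by
    have := hr 0
    simpa using this
  rcases mul_eq_zero.mp h1.symm with h2 | h2
  · exact absurd h2 hr0
  · simpa using h2

end graph

section counting

open Matrix SimpleGraph Finset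

theorem Hn_connected {n : ℕ} (hn : 1 ≤ n) : (Hn n).Connected := by
  have h0 : 0 < 2 * n := by omega
  have hpos : ∀ c, c < 2 * n → 0 < 4 * sz n c := fun c hc => by
    have := sz_pos hc; omega
  have key : ∀ c (hc : c < 2 * n) (a : Fin (4 * sz n c)),
      (Hn n).Reachable ⟨⟨c, hc⟩, a⟩ ⟨⟨0, h0⟩, ⟨0, hpos 0 h0⟩⟩ := by
    intro c
    induction c with
    | zero =>
      intro hc a
      have h1 : 1 < 2 * n := by omega
      have e1 : (Hn n).Adj ⟨⟨0, hc⟩, a⟩ ⟨⟨1, h1⟩, ⟨0, hpos 1 h1⟩⟩ := Or.inl rfl
      have e2 : (Hn n).Adj ⟨⟨1, h1⟩, ⟨0, hpos 1 h1⟩⟩ ⟨⟨0, h0⟩, ⟨0, hpos 0 h0⟩⟩ := Or.inr rfl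
      exact e1.reachable.trans e2.reachable
    | succ c ih =>
      intro hc a
      have hc' : c < 2 * n := by omega
      have e1 : (Hn n).Adj ⟨⟨c + 1, hc⟩, a⟩ ⟨⟨c, hc'⟩, ⟨0, hpos c hc'⟩⟩ := Or.inr rfl
      exact e1.reachable.trans (ih hc' _)
  have : Nonempty (Wn n) := ⟨⟨⟨0, h0⟩, ⟨0, hpos 0 h0⟩⟩⟩
  refine ⟨?_⟩
  rintro ⟨⟨c, hc⟩, a⟩ ⟨⟨c', hc'⟩, a'⟩
  exact (key c hc a).trans (key c' hc' a').symm

theorem Hn_degree_le {n : ℕ} (x : Wn n) : (Hn n).degree x ≤ 8 * n := by
  classical
  have hsub : (Hn n).neighborFinset x ⊆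
      (Finset.univ.filter (fun c : Fin (2 * n) => (x.1 : ℕ) + 1 = c ∨ (c : ℕ) + 1 = x.1)).sigma
        (fun c => (Finset.univ : Finset (Fin (4 * sz n c)))) := by
    intro y hy
    rw [mem_neighborFinset] at hy
    simp only [Finset.mem_sigma, Finset.mem_filter, Finset.mem_univ, true_and, and_true]
    exact hy
  have hcard : (Finset.univ.filter
      (fun c : Fin (2 * n) => (x.1 : ℕ) + 1 = c ∨ (c : ℕ) + 1 = x.1)).card ≤ 2 := by
    rw [← Finset.card_map Fin.valEmbedding]
    have : (Finset.map Fin.valEmbedding (Finset.univ.filter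
      (fun c : Fin (2 * n) => (x.1 : ℕ) + 1 = c ∨ (c : ℕ) + 1 = x.1)))
        ⊆ {(x.1 : ℕ) + 1, (x.1 : ℕ) - 1} := by
      intro c hc
      simp only [Finset.mem_map, Finset.mem_filter, Finset.mem_univ, true_and,
        Fin.valEmbedding_apply] at hc
      obtain ⟨c', h, rfl⟩ := hc
      simp only [Finset.mem_insert, Finset.mem_singleton]
      omega
    exact (Finset.card_le_card this).trans Finset.card_le_two
  calc (Hn n).degree x = ((Hn n).neighborFinset x).card := rfl
    _ ≤ _ := Finset.card_le_card hsub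
    _ = ∑ c ∈ Finset.univ.filter
        (fun c : Fin (2 * n) => (x.1 : ℕ) + 1 = c ∨ (c : ℕ) + 1 = x.1), 4 * sz n c := by
      rw [Finset.card_sigma]
      simp
    _ ≤ ∑ c ∈ Finset.univ.filter
        (fun c : Fin (2 * n) => (x.1 : ℕ) + 1 = c ∨ (c : ℕ) + 1 = x.1), 4 * n := by
      apply Finset.sum_le_sum
      intro c _
      have := sz_le c.2
      omega
    _ ≤ 2 * (4 * n) := by
      rw [Finset.sum_const, smul_eq_mul]
      exact Nat.mul_le_mul_right _ hcard
    _ = 8 * n := by ring

theorem card_Wn_le (n : ℕ) : Fintype.card (Wn n) ≤ 8 * n ^ 2 := by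
  rw [Fintype.card_sigma]
  calc ∑ c : Fin (2 * n), Fintype.card (Fin (4 * sz n c))
      ≤ ∑ c : Fin (2 * n), 4 * n := by
        apply Finset.sum_le_sum
        intro c _
        rw [Fintype.card_fin]
        have := sz_le c.2
        omega
    _ = 8 * n ^ 2 := by
      rw [Finset.sum_const, Finset.card_univ, Fintype.card_fin, smul_eq_mul]; ring

theorem walk_bound {n : ℕ} {x y : Wn n × Bool}
    (p : (Hn n □ (⊤ : SimpleGraph Bool)).Walk x y) :
    (y.1.1 : ℕ) ≤ (x.1.1 : ℕ) + p.length := by
  induction p with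
  | nil => simp
  | cons h p ih =>
    rw [Walk.length_cons]
    rw [boxProd_adj] at h
    rcases h with ⟨h, _⟩ | ⟨_, h⟩
    · rcases h with h | h <;> omega
    · rw [h]; omega

theorem diam_ge {n : ℕ} (hn : 1 ≤ n) : n ≤ (Hn n □ (⊤ : SimpleGraph Bool)).diam := by
  have hconn : (Hn n □ (⊤ : SimpleGraph Bool)).Connected :=
    (Hn_connected hn).boxProd connected_top
  have hnt : (Hn n □ (⊤ : SimpleGraph Bool)).ediam ≠ ⊤ := by
    have : Nonempty (Wn n) := (Hn_connected hn).nonempty
    exact connected_iff_ediam_ne_top.mp hconn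
  have h0 : 0 < 2 * n := by omega
  have h1 : 2 * n - 1 < 2 * n := by omega
  have hpos : ∀ c, c < 2 * n → 0 < 4 * sz n c := fun c hc => by
    have := sz_pos hc; omega
  let x : Wn n × Bool := (⟨⟨0, h0⟩, ⟨0, hpos 0 h0⟩⟩, false)
  let y : Wn n × Bool := (⟨⟨2 * n - 1, h1⟩, ⟨0, hpos _ h1⟩⟩, false)
  obtain ⟨p, hp⟩ := hconn.exists_walk_length_eq_dist x y
  have h2 := walk_bound p
  have h3 := dist_le_diam hnt (u := x) (v := y)
  have h4 : (y.1.1 : ℕ) = 2 * n - 1 := rfl
  have h5 : (x.1.1 : ℕ) = 0 := rfl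
  omega

theorem edges_le (n : ℕ) (hn : 1 ≤ n) [DecidableRel (Hn n □ (⊤ : SimpleGraph Bool)).Adj] :
    (Hn n □ (⊤ : SimpleGraph Bool)).edgeFinset.card ≤ 72 * n ^ 3 := by
  have h := sum_degrees_eq_twice_card_edges (Hn n □ (⊤ : SimpleGraph Bool))
  have h2 : 2 * (Hn n □ (⊤ : SimpleGraph Bool)).edgeFinset.card
      ≤ (8 * n ^ 2 * 2) * (9 * n) := by
    rw [← h]
    calc _ ≤ ∑ _x : Wn n × Bool, 9 * n := by
          apply Finset.sum_le_sum
          intro x _
          rw [degree_boxProd]
          have h1 := Hn_degree_le x.1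
          have h2 : (⊤ : SimpleGraph Bool).degree x.2 = 1 := by
            rw [complete_graph_degree]; rfl
          omega
      _ = Fintype.card (Wn n × Bool) * (9 * n) := by
        rw [Finset.sum_const, Finset.card_univ, smul_eq_mul]
      _ ≤ _ := by
        apply Nat.mul_le_mul_right
        rw [Fintype.card_prod, Fintype.card_bool]
        exact Nat.mul_le_mul_right _ (card_Wn_le n)
  have h3 : (8 * n ^ 2 * 2) * (9 * n) = 2 * (72 * n ^ 3) := by ring
  omega

end counting

end PstGraph
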